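import Pool.Agent.H55.CG.Targets

/-!
# MP_65efe8_pr, cog_modules, row DIS: the favourable events are disjoint
-/

set_option autoImplicit false

open MeasureTheory ProbabilityTheory Filter Topology Pool.Agent.H95 Pool.Agent.H95.Cop
open Pool.Agent.H55.CG

namespace Pool.Agent.H4.CG

theorem H_shift' (t : ℕ) (x : ℕ → ℝ) (a b : ℕ) : H (shift t x) a b = H x (a + t) (b + t) := by
  unfold H shift
  exact (Finset.sum_Ico_add' (fun i => x i) a b t)

theorem SX_shift (ℓ u : ℕ) (x : ℕ → ℝ) (a b : ℕ) :
    SX ℓ (shift (2 * u * ℓ) x) a b = SX ℓ x (a + u) (b + u) := by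
  unfold SX
  rw [← Finset.sum_Ico_add']
  refine Finset.sum_congr rfl fun j _ => ?_
  rw [H_shift']
  congr 1 <;> ring

theorem step1 {q ℓ u u' v : ℕ} {x : ℕ → ℝ} (hq : 1 ≤ q) (hv : q ≤ v) (huu : u < u')
    (h1 : Gd q ℓ false u' x) (h2 : Gd q ℓ true v (shift (2 * u * ℓ) x)) : False := by
  obtain ⟨h1a, h1b⟩ := h1
  by_cases hc : u + v ≤ u'
  · have h3 := h1b u (u + v) (by omega) hc
    have h4 := (h2 v (by omega) le_rfl).1
    rw [SX_shift, Nat.zero_add, Nat.add_comm v u] at h4
    linarith
  · have h3 := (h1a (u' - u) (by omega) (by omega)).2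
    have h4 := (h2 (u' - u) (by omega) (by omega)).1
    rw [SX_shift, Nat.zero_add] at h4
    have e1 : u' - (u' - u) = u := by omega
    have e2 : u' - u + u = u' := by omega
    rw [e1] at h3
    rw [e2] at h4
    linarith

theorem step2 {q R ℓ u v v' : ℕ} {x : ℕ → ℝ} {M M' : List (ℕ × ℕ)} (hq : 1 ≤ q) (hv : q ≤ v)
    (hv' : v' < 2 * q) (hvv : v < v') (hM : okL q R M)
    (ht : tot ((u, v) :: M) = tot ((u, v') :: M')) (h1 : Gd q ℓ true v' (shift (2 * u * ℓ) x))
    (h2 : GP q ℓ M (shift (2 * (u + v) * ℓ) x)) : False := by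
  cases M with
  | nil =>
    simp only [tot] at ht
    omega
  | cons p M =>
    obtain ⟨h3, _, _⟩ := h2
    have hp := hM p (by simp)
    have h4 := (h3.1 (v' - v) (by omega) (by omega)).1
    have h5 := (h1 (v' - v) (by omega) (by omega)).2
    rw [SX_shift] at h4 h5
    have e1 : 0 + (u + v) = v' - (v' - v) + u := by omega
    have e2 : v' - v + (u + v) = v' + u := by omega
    rw [e1, e2] at h4
    linarith

theorem pf_DIS : T_DIS := by
  intro q R ℓ hq L
  induction L with
  | nil =>
    intro L' x _ hL' ht _ _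
    cases L' with
    | nil => rfl
    | cons p M =>
      have hp := hL' p (by simp)
      simp only [tot] at ht
      omega
  | cons p M ih =>
    intro L' x hL hL' ht h h'
    cases L' with
    | nil =>
      have hp := hL p (by simp)
      simp only [tot] at ht
      omega
    | cons p' M' =>
      obtain ⟨u, v⟩ := p
      obtain ⟨u', v'⟩ := p'
      have hp := hL (u, v) (by simp)
      have hp' := hL' (u', v') (by simp)
      have hM : okL q R M := fun a ha => hL a (by simp [ha])
      have hM' : okL q R M' := fun a ha => hL' a (by simp [ha])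
      obtain ⟨g1, g2, g3⟩ := h
      obtain ⟨g1', g2', g3'⟩ := h'
      have huu : u = u' := by
        rcases Nat.lt_trichotomy u u' with h | h | h
        · exact (step1 hq hp.2.2.1 h g1' g2).elim
        · exact h
        · exact (step1 hq hp'.2.2.1 h g1 g2').elim
      subst huu
      have hvv : v = v' := by
        rcases Nat.lt_trichotomy v v' with h | h | h
        · exact (step2 hq hp.2.2.1 hp'.2.2.2 h hM ht g2' g3).elim
        · exact h
        · exact (step2 hq hp'.2.2.1 hp.2.2.2 h hM' ht.symm g2 g3').elim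
      subst hvv
      have ht' : tot M = tot M' := by
        simp only [tot] at ht
        omega
      rw [ih M' _ hM hM' ht' g3 g3']

end Pool.Agent.H4.CG
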